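import Pool.Agent.Lib.MP_2eab14_co.helper52.Main

/-!
# Clique-sums along trees of bounded Horton-Strahler number

For every `k`, every family `F` of finite graphs whose weighted metrics embed into `ℓ₁` with
uniformly bounded distortion, and every `r`, all graphs obtained from members of `F` by
`k`-clique-sums along rooted trees of Horton-Strahler number at most `r`, followed by
arbitrary sums along at most one vertex and by deletions of edges, embed into `ℓ₁` with uniformly
bounded distortion.
-/

namespace Pool.Agent.Results.MP_2eab14_co.BoundedStrahler

theorem result (k : ℕ) (F : KSum52.Family) (hF : ∃ D : ℝ, KSum52.Embeds F D) (r : ℕ) :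
    ∃ D' : ℝ, KSum52.Embeds (KSum52.Sub (KSum52.OneSums (KSum52.TreeSums k F r))) D' :=
  KSum52.main k F hF r

end Pool.Agent.Results.MP_2eab14_co.BoundedStrahler
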