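import Pool.Agent.Lib.MP_2eab14_co.TwoSum.Strict

/-!
# Graphs of treewidth at most three embed into `ℓ₁` with bounded distortion

There is a constant `D` such that for every `k` and every family `F` of graphs of treewidth at
most three, every graph of the closure `⊕_k F` under sums along cliques with at most `k` vertices, with
arbitrary positive edge weights, embeds into `ℓ₁` with distortion at most `D`.
-/

namespace Pool.Agent.Results.MP_2eab14_co.TreewidthThree

open KSum52 TwoSum TW3

theorem result : ∃ D : ℝ, ∀ (k : ℕ) (F : Family),
    (∀ (n : ℕ) (G : SimpleGraph (Fin n)), F n G → Tw 3 n G) → Embeds (Clos k F) D :=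
  TW3.mainTw

end Pool.Agent.Results.MP_2eab14_co.TreewidthThree
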