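import Pool.Agent.Lib.MP_2eab14_co.TwoSum.Strict

/-!
# The 2-sum theorem

For EVERY family `F` of finite graphs and every `k`: the closure `⊕₂ (F ∪ PW k)` under (arbitrarily
many) sums along cliques with at most two vertices, with optional deletion of clique edges, of the
graphs of `F` together with all graphs of pathwidth at most `k`, embeds into `ℓ₁` with
bounded distortion (for all positive edge weights) if and only if `F` is root-exact: for some `D`,
every weighted graph of `F` has for each edge `pq` a 1-Lipschitz map to `ℓ₁` which is
isometric on the single pair `p, q` and contracts no distance by more than the factor `D`.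
-/

namespace Pool.Agent.Results.MP_2eab14_co.TwoSumTheorem

open KSum52 TwoSum

theorem result (F : Family) (k : ℕ) :
    (∃ D, Embeds (Clos 2 (FUnion F (PW k))) D) ↔ ∃ D, RootExact F D :=
  TwoSum.strict F k

end Pool.Agent.Results.MP_2eab14_co.TwoSumTheorem
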